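import Mathlib

set_option autoImplicit false

/-!
# Kernels of maps from finitely generated Engel groups to `ℤ` are finitely generated
-/

namespace Pool.Agent.Helper94.Gupta

variable {G : Type*} [Group G]

/-- the `n`-th Engel commutator `[x, t, …, t]` is `w * x ^ (t ^ n)` with `w` in any subgroup
containing `x ^ (t ^ j)`, `j < n`. -/
theorem eng_form (x t : G) (n : ℕ) (S : Subgroup G) (hS : ∀ j < n, t⁻¹ ^ j * x * t ^ j ∈ S) :
    ∃ w ∈ S, (fun z : G => z⁻¹ * t⁻¹ * z * t)^[n] x = w * (t⁻¹ ^ n * x * t ^ n) := by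
  induction n generalizing S with
  | zero => exact ⟨1, S.one_mem, by simp⟩
  | succ n ih =>
    obtain ⟨w, hw, he⟩ := ih (S ⊓ S.comap (MulAut.conj t⁻¹).toMonoidHom) (by
      intro j hj
      refine Subgroup.mem_inf.2 ⟨hS j (by omega), ?_⟩
      have := hS (j + 1) (by omega)
      simp only [Subgroup.mem_comap, MulEquiv.toMonoidHom_eq_coe, MonoidHom.coe_coe,
        MulAut.conj_apply, inv_inv]
      have e : t⁻¹ * (t⁻¹ ^ j * x * t ^ j) * t = t⁻¹ ^ (j + 1) * x * t ^ (j + 1) := by
        rw [pow_succ' t⁻¹, pow_succ t]; group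
      rw [e]; exact this)
    have hw1 : w ∈ S := hw.1
    have hw2 : t⁻¹ * w * t ∈ S := by simpa using hw.2
    have hn := hS n (by omega)
    refine ⟨(t⁻¹ ^ n * x * t ^ n)⁻¹ * w⁻¹ * (t⁻¹ * w * t),
      S.mul_mem (S.mul_mem (S.inv_mem hn) (S.inv_mem hw1)) hw2, ?_⟩
    rw [Function.iterate_succ_apply', he]
    rw [pow_succ' t⁻¹, pow_succ t]
    group

theorem mem_up (x t : G) (n : ℕ) (hn1 : 1 < n)
    (hn : x⁻¹ * t⁻¹ * x * t = (fun z : G => z⁻¹ * t⁻¹ * z * t)^[n] x)
    (S : Subgroup G) (hS : ∀ j < n, t⁻¹ ^ j * x * t ^ j ∈ S) : t⁻¹ ^ n * x * t ^ n ∈ S := by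
  obtain ⟨w, hw, he⟩ := eng_form x t n S hS
  rw [← hn] at he
  have h0 : x ∈ S := by simpa using hS 0 (by omega)
  have h1 : t⁻¹ * x * t ∈ S := by simpa using hS 1 hn1
  have : t⁻¹ ^ n * x * t ^ n = w⁻¹ * (x⁻¹ * (t⁻¹ * x * t)) := by
    rw [eq_inv_mul_iff_mul_eq, ← he]; group
  rw [this]
  exact S.mul_mem (S.inv_mem hw) (S.mul_mem (S.inv_mem h0) h1)

/-- `⟨x⟩^⟨t⟩` is finitely generated for all `x, t`, in one-sided form -/
def Restr (G : Type*) [Group G] : Prop :=
  ∀ x t : G, ∃ n : ℕ, ∀ S : Subgroup G, (∀ j < n, t⁻¹ ^ j * x * t ^ j ∈ S) →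
    t⁻¹ ^ n * x * t ^ n ∈ S

/-- two-sided finiteness -/
theorem fin_conj (hE : Restr G) (x t : G) :
    ∃ N : ℕ, ∀ S : Subgroup G, (∀ k : ℤ, |k| ≤ N → t ^ (-k) * x * t ^ k ∈ S) →
      ∀ k : ℤ, t ^ (-k) * x * t ^ k ∈ S := by
  obtain ⟨n₁, h₁⟩ := hE x t
  obtain ⟨n₂, h₂⟩ := hE x t⁻¹
  refine ⟨n₁ + n₂ + 1, ?_⟩
  intro S hS
  have up : ∀ a : ℤ, (∀ j : ℕ, j < n₁ → t ^ (-(a + j)) * x * t ^ (a + j) ∈ S) →
      t ^ (-(a + n₁)) * x * t ^ (a + n₁) ∈ S := by
    intro a ha
    have := h₁ (S.comap (MulAut.conj (t ^ (-a))).toMonoidHom) (by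
      intro j hj
      have h := ha j hj
      simp only [Subgroup.mem_comap, MulEquiv.toMonoidHom_eq_coe, MonoidHom.coe_coe,
        MulAut.conj_apply]
      have e : t ^ (-a) * (t⁻¹ ^ j * x * t ^ j) * (t ^ (-a))⁻¹ =
          t ^ (-(a + j)) * x * t ^ (a + j) := by
        rw [← zpow_natCast t⁻¹, ← zpow_natCast t, inv_zpow]; group
      rw [e]; exact h)
    simp only [Subgroup.mem_comap, MulEquiv.toMonoidHom_eq_coe, MonoidHom.coe_coe,
      MulAut.conj_apply] at this
    have e : t ^ (-a) * (t⁻¹ ^ n₁ * x * t ^ n₁) * (t ^ (-a))⁻¹ =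
        t ^ (-(a + n₁)) * x * t ^ (a + n₁) := by
      rw [← zpow_natCast t⁻¹, ← zpow_natCast t, inv_zpow]; group
    rw [e] at this; exact this
  have dn : ∀ a : ℤ, (∀ j : ℕ, j < n₂ → t ^ (-(a - j)) * x * t ^ (a - j) ∈ S) →
      t ^ (-(a - n₂)) * x * t ^ (a - n₂) ∈ S := by
    intro a ha
    have := h₂ (S.comap (MulAut.conj (t ^ (-a))).toMonoidHom) (by
      intro j hj
      have h := ha j hj
      simp only [Subgroup.mem_comap, MulEquiv.toMonoidHom_eq_coe, MonoidHom.coe_coe,
        MulAut.conj_apply]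
      have e : t ^ (-a) * (t⁻¹⁻¹ ^ j * x * t⁻¹ ^ j) * (t ^ (-a))⁻¹ =
          t ^ (-(a - j)) * x * t ^ (a - j) := by
        rw [← zpow_natCast t⁻¹, ← zpow_natCast t⁻¹⁻¹, inv_inv, inv_zpow]; group
      rw [e]; exact h)
    simp only [Subgroup.mem_comap, MulEquiv.toMonoidHom_eq_coe, MonoidHom.coe_coe,
      MulAut.conj_apply] at this
    have e : t ^ (-a) * (t⁻¹⁻¹ ^ n₂ * x * t⁻¹ ^ n₂) * (t ^ (-a))⁻¹ =
        t ^ (-(a - n₂)) * x * t ^ (a - n₂) := by
      rw [← zpow_natCast t⁻¹, ← zpow_natCast t⁻¹⁻¹, inv_inv, inv_zpow]; group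
    rw [e] at this; exact this
  have posn : ∀ m : ℕ, ∀ k : ℤ, |k| ≤ m → t ^ (-k) * x * t ^ k ∈ S := by
    intro m
    induction m with
    | zero => intro k hk; exact hS k (by push_cast at hk ⊢; omega)
    | succ m ih =>
      intro k hk
      by_cases hkm : |k| ≤ m
      · exact ih k hkm
      · by_cases hkN : |k| ≤ ((n₁ + n₂ + 1 : ℕ) : ℤ)
        · exact hS k hkN
        · push_cast at hk hkN
          rcases le_or_gt 0 k with h0 | h0
          · rw [abs_of_nonneg h0] at hk hkm hkN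
            have := up (k - n₁) (by
              intro j hj
              apply ih
              rw [abs_le]; constructor <;> omega)
            have e : k - n₁ + n₁ = k := by ring
            rw [e] at this; exact this
          · rw [abs_of_neg h0] at hk hkm hkN
            have := dn (k + n₂) (by
              intro j hj
              apply ih
              rw [abs_le]; constructor <;> omega)
            have e : k + n₂ - n₂ = k := by ring
            rw [e] at this; exact this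
  intro k
  exact posn k.natAbs k (by rw [Int.natCast_natAbs])

/-- generator of the range -/
theorem range_gen (φ : G →* Multiplicative ℤ) :
    ∃ t : G, ∀ g : G, ∃ m : ℤ, φ g = φ t ^ m := by
  have hc : IsCyclic φ.range := inferInstance
  obtain ⟨⟨g₀, t, rfl⟩, hg⟩ := hc.exists_generator
  refine ⟨t, fun g => ?_⟩
  obtain ⟨m, hm⟩ := Subgroup.mem_zpowers_iff.1 (hg ⟨φ g, g, rfl⟩)
  exact ⟨m, (congrArg Subtype.val hm).symm⟩

theorem zpow_eq_one_mulInt {a : Multiplicative ℤ} (ha : a ≠ 1) {m : ℤ} (h : a ^ m = 1) : m = 0 := by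
  have h2 : m * Multiplicative.toAdd a = 0 := by
    have := congrArg Multiplicative.toAdd h
    simpa using this
  rcases mul_eq_zero.1 h2 with h3 | h3
  · exact h3
  · exact absurd h3 ha

theorem ker_fg (hE : Restr G)
    (hfg : Group.FG G) (φ : G →* Multiplicative ℤ) : φ.ker.FG := by
  classical
  by_cases hφ : φ = 1
  · subst hφ
    have : (1 : G →* Multiplicative ℤ).ker = ⊤ := by ext x; simp [MonoidHom.mem_ker]
    rw [this]; exact Group.fg_def.1 hfg
  obtain ⟨t, ht⟩ := range_gen φ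
  have ht1 : φ t ≠ 1 := by
    intro h
    apply hφ
    ext g
    obtain ⟨m, hm⟩ := ht g
    rw [hm, h, one_zpow]; rfl
  choose e he using ht
  obtain ⟨T, hT⟩ := Group.fg_def.1 hfg
  choose N hN using fun s : G => fin_conj hE (s * t ^ (-(e s))) t
  let F : Finset G := T.biUnion fun s => (Finset.Icc (-(N s : ℤ)) (N s)).image
    fun k => t ^ (-k) * (s * t ^ (-(e s))) * t ^ k
  refine ⟨F, ?_⟩
  set D := Subgroup.closure (F : Set G) with hD
  have hDall : ∀ s ∈ T, ∀ k : ℤ, t ^ (-k) * (s * t ^ (-(e s))) * t ^ k ∈ D := by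
    intro s hs
    apply hN s
    intro k hk
    apply Subgroup.subset_closure
    simp only [F, Finset.coe_biUnion, Set.mem_iUnion, Finset.coe_image, Set.mem_image,
      Finset.coe_Icc, Set.mem_Icc]
    exact ⟨s, hs, k, abs_le.1 hk, rfl⟩
  -- stability under conjugation by powers of t
  have hFconj : ∀ x ∈ D, ∀ m : ℤ, t ^ (-m) * x * t ^ m ∈ D := by
    intro x hx m
    have hle : D ≤ D.comap (MulAut.conj (t ^ (-m))).toMonoidHom := by
      rw [hD, Subgroup.closure_le]
      intro y hy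
      simp only [F, Finset.coe_biUnion, Set.mem_iUnion, Finset.coe_image, Set.mem_image,
        Finset.coe_Icc, Set.mem_Icc] at hy
      obtain ⟨s, hs, k, hk, rfl⟩ := hy
      have := hDall s hs (k + m)
      simp only [SetLike.mem_coe, Subgroup.mem_comap, MulEquiv.toMonoidHom_eq_coe,
        MonoidHom.coe_coe, MulAut.conj_apply]
      have e1 : t ^ (-m) * (t ^ (-k) * (s * t ^ (-(e s))) * t ^ k) * (t ^ (-m))⁻¹ =
          t ^ (-(k + m)) * (s * t ^ (-(e s))) * t ^ (k + m) := by group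
      rw [e1]; exact this
    have := hle hx
    simp only [Subgroup.mem_comap, MulEquiv.toMonoidHom_eq_coe,
        MonoidHom.coe_coe, MulAut.conj_apply] at this
    have e1 : t ^ (-m) * x * (t ^ (-m))⁻¹ = t ^ (-m) * x * t ^ m := by group
    rw [e1] at this; exact this
  apply le_antisymm
  · rw [hD, Subgroup.closure_le]
    intro y hy
    simp only [F, Finset.coe_biUnion, Set.mem_iUnion, Finset.coe_image, Set.mem_image,
        Finset.coe_Icc, Set.mem_Icc] at hy
    obtain ⟨s, hs, k, hk, rfl⟩ := hy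
    simp only [SetLike.mem_coe, MonoidHom.mem_ker, map_mul, map_zpow]
    rw [he s]
    group
  · intro g hg
    have hall : ∀ g : G, ∃ m : ℤ, g * t ^ (-m) ∈ D := by
      intro g
      have hg : g ∈ Subgroup.closure (T : Set G) := by rw [hT]; trivial
      induction hg using Subgroup.closure_induction with
      | mem s hs =>
        refine ⟨e s, ?_⟩
        have := hDall s hs 0
        simpa using this
      | one => exact ⟨0, by simp⟩
      | mul a b _ _ ha hb =>
        obtain ⟨m, hm⟩ := ha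
        obtain ⟨l, hl⟩ := hb
        refine ⟨m + l, ?_⟩
        have h2 := hFconj _ hl (-m)
        have := D.mul_mem hm h2
        have e1 : a * t ^ (-m) * (t ^ (-(-m)) * (b * t ^ (-l)) * t ^ (-m)) =
            a * b * t ^ (-(m + l)) := by group
        rw [e1] at this; exact this
      | inv a _ ha =>
        obtain ⟨m, hm⟩ := ha
        refine ⟨-m, ?_⟩
        have h2 := hFconj _ (D.inv_mem hm) m
        have e1 : t ^ (-m) * (a * t ^ (-m))⁻¹ * t ^ m = a⁻¹ * t ^ (-(-m)) := by group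
        rw [e1] at h2; exact h2
    obtain ⟨m, hm⟩ := hall g
    have hDker : ∀ x ∈ D, φ x = 1 := by
      intro x hx
      have : D ≤ φ.ker := by
        rw [hD, Subgroup.closure_le]
        intro y hy
        simp only [F, Finset.coe_biUnion, Set.mem_iUnion, Finset.coe_image, Set.mem_image,
            Finset.coe_Icc, Set.mem_Icc] at hy
        obtain ⟨s, hs, k, hk, rfl⟩ := hy
        simp only [SetLike.mem_coe, MonoidHom.mem_ker, map_mul, map_zpow]
        rw [he s]
        group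
      exact this hx
    have h1 := hDker _ hm
    rw [map_mul, map_zpow, MonoidHom.mem_ker.1 hg, one_mul] at h1
    have hm0 := zpow_eq_one_mulInt ht1 h1
    have : m = 0 := by omega
    subst this
    simpa using hm

end Pool.Agent.Helper94.Gupta
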