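import Mathlib
import Pool.Agent.Helper94.Gupta.Ker
import Pool.Agent.Helper94.Tarski.Indic

set_option autoImplicit false

/-!
# Groups satisfying `[x,y] = [x,y,…,y]`: derived subgroups of finitely generated subgroups are
finitely generated and perfect
-/

namespace Pool.Agent.Helper94.Gupta

theorem Restr.subgroup {G : Type*} [Group G] (hE : Restr G) (K : Subgroup G) : Restr K := by
  intro x t
  obtain ⟨n, hn⟩ := hE (x : G) (t : G)
  refine ⟨n, ?_⟩
  intro S hS
  have := hn (S.map K.subtype) (by
    intro j hj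
    exact ⟨_, hS j hj, by simp⟩)
  obtain ⟨y, hy, hyx⟩ := this
  have : y = t⁻¹ ^ n * x * t ^ n := by
    apply Subtype.ext
    rw [← Subgroup.coe_subtype, hyx]; simp
  rwa [← this]

theorem fg_map {G : Type*} [Group G] (K : Subgroup G) (L : Subgroup K) (hL : L.FG) :
    (L.map K.subtype).FG := by
  classical
  obtain ⟨T, hT⟩ := hL
  refine ⟨T.image K.subtype, ?_⟩
  rw [Finset.coe_image, ← MonoidHom.map_closure, hT]

theorem ker_free_fg (n : ℕ) : ∀ (G : Type) [Group G], Restr G → Group.FG G →
    ∀ f : G →* (Fin n → Multiplicative ℤ), f.ker.FG := by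
  induction n with
  | zero =>
    intro G _ hE hfg f
    have : f.ker = ⊤ := by
      ext x
      simp only [MonoidHom.mem_ker, Subgroup.mem_top, iff_true]
      exact Subsingleton.elim _ _
    rw [this]; exact Group.fg_def.1 hfg
  | succ n ih =>
    intro G _ hE hfg f
    let φ : G →* Multiplicative ℤ := (Pi.evalMonoidHom _ 0).comp f
    have hφ : φ.ker.FG := ker_fg hE hfg φ
    let ψ : φ.ker →* (Fin n → Multiplicative ℤ) :=
      Pi.monoidHom (fun i => ((Pi.evalMonoidHom _ i.succ).comp f).comp φ.ker.subtype)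
    have h2 := ih φ.ker (hE.subgroup _) ((Group.fg_iff_subgroup_fg _).2 hφ) ψ
    have h3 : f.ker = ψ.ker.map φ.ker.subtype := by
      ext x
      rw [Subgroup.mem_map]
      constructor
      · intro hx
        have hx' : f x = 1 := hx
        refine ⟨⟨x, ?_⟩, ?_, rfl⟩
        · show f x 0 = 1
          rw [hx']; rfl
        · show ψ _ = 1
          funext i
          show f x i.succ = 1
          rw [hx']; rfl
      · rintro ⟨y, hy, rfl⟩
        show f y = 1
        have hy' : ψ y = 1 := hy
        funext i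
        refine Fin.cases ?_ (fun j => ?_) i
        · exact y.2
        · exact congrFun hy' j
    rw [h3]
    exact fg_map _ _ h2

theorem commutator_fg (G : Type) [Group G] (hE : Restr G) (hfg : Group.FG G) :
    (commutator G).FG := by
  classical
  have hA : Group.FG (Abelianization G) :=
    Group.fg_of_surjective (f := Abelianization.of) (QuotientGroup.mk_surjective)
  obtain ⟨ι, j, hι, hj, p, hp, e, ⟨E⟩⟩ :=
    CommGroup.equiv_free_prod_prod_multiplicative_zmod (Abelianization G)
  have hfin : Finite ((i : ι) → Multiplicative (ZMod (p i ^ e i))) := by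
    have : ∀ i, Finite (Multiplicative (ZMod (p i ^ e i))) := by
      intro i
      have : NeZero (p i ^ e i) := ⟨pow_ne_zero _ (hp i).ne_zero⟩
      exact (inferInstance : Finite (ZMod (p i ^ e i)))
    exact Pi.finite
  let F : G →* (j → Multiplicative ℤ) × ((i : ι) → Multiplicative (ZMod (p i ^ e i))) :=
    E.toMonoidHom.comp Abelianization.of
  have hF : F.ker = commutator G := by
    rw [← Abelianization.ker_of]
    ext x
    rw [MonoidHom.mem_ker, MonoidHom.mem_ker]
    show E (Abelianization.of x) = 1 ↔ _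
    rw [EmbeddingLike.map_eq_one_iff]
  let F1 : G →* (j → Multiplicative ℤ) := (MonoidHom.fst _ _).comp F
  have h1 : F1.ker.FG := by
    let F1' : G →* (Fin (Fintype.card j) → Multiplicative ℤ) :=
      Pi.monoidHom (fun i => (Pi.evalMonoidHom _ ((Fintype.equivFin j).symm i)).comp F1)
    have h := ker_free_fg _ G hE hfg F1'
    have h4 : F1.ker = F1'.ker := by
      ext x
      constructor
      · intro hx
        have hx' : F1 x = 1 := hx
        show F1' x = 1
        funext i
        show F1 x ((Fintype.equivFin j).symm i) = 1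
        rw [hx']; rfl
      · intro hx
        have hx' : F1' x = 1 := hx
        show F1 x = 1
        funext i
        have := congrFun hx' (Fintype.equivFin j i)
        have h5 : F1' x (Fintype.equivFin j i) = F1 x ((Fintype.equivFin j).symm (Fintype.equivFin j i)) := rfl
        rw [h5, Equiv.symm_apply_apply] at this
        exact this
    rw [h4]; exact h
  let F2 : F1.ker →* ((i : ι) → Multiplicative (ZMod (p i ^ e i))) :=
    ((MonoidHom.snd _ _).comp F).comp F1.ker.subtype
  have : Group.FG F1.ker := (Group.fg_iff_subgroup_fg _).2 h1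
  have hfi : F2.ker.FiniteIndex := inferInstance
  have h2 : F2.ker.FG := (Group.fg_iff_subgroup_fg _).1 (Subgroup.fg_of_index_ne_zero (H := F2.ker))
  have h3 : F.ker = F2.ker.map F1.ker.subtype := by
    ext x
    rw [Subgroup.mem_map]
    constructor
    · intro hx
      have hx' : F x = 1 := hx
      refine ⟨⟨x, ?_⟩, ?_, rfl⟩
      · show (F x).1 = 1
        rw [hx']; rfl
      · show (F x).2 = 1
        rw [hx']; rfl
    · rintro ⟨y, hy, rfl⟩
      show F y = 1
      exact Prod.ext y.2 hy
  rw [← hF, h3]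
  exact fg_map _ _ h2

section law

variable {G : Type} [Group G]

/-- the law `L_n` -/
def Law (n : ℕ) (G : Type) [Group G] : Prop :=
  ∀ x y : G, x⁻¹ * y⁻¹ * x * y = (fun z : G => z⁻¹ * y⁻¹ * z * y)^[n] x

theorem Law.restr {n : ℕ} (hn : 1 < n) (hL : Law n G) : Restr G := fun x t =>
  ⟨n, fun S hS => mem_up x t n hn (hL x t) S hS⟩

theorem Law.subgroup {n : ℕ} (hL : Law n G) (K : Subgroup G) : Law n K := by
  intro x y
  apply Subtype.ext
  have : ∀ n : ℕ, (((fun z : K => z⁻¹ * y⁻¹ * z * y)^[n] x : K) : G) =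
      (fun z : G => z⁻¹ * (y : G)⁻¹ * z * (y : G))^[n] (x : G) := by
    intro n
    induction n with
    | zero => rfl
    | succ n ih =>
      rw [Function.iterate_succ_apply', Function.iterate_succ_apply', ← ih]
      rfl
  rw [this]
  exact hL x y

/-- `[G, K] ≤ [K, K]` for normal `K` -/
theorem Law.comm_mem {n : ℕ} (hn : 1 < n) (hL : Law n G) (K : Subgroup G) [hK : K.Normal]
    (x y : G) (hy : y ∈ K) : x⁻¹ * y⁻¹ * x * y ∈ ⁅K, K⁆ := by
  have hcm : ∀ a ∈ K, ∀ b ∈ K, a⁻¹ * b⁻¹ * a * b ∈ ⁅K, K⁆ := by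
    intro a ha b hb
    have := Subgroup.commutator_mem_commutator (K.inv_mem ha) (K.inv_mem hb)
    rw [commutatorElement_def] at this
    simpa using this
  have h1 : x⁻¹ * y⁻¹ * x * y ∈ K := by
    have := K.mul_mem (hK.conj_mem _ (K.inv_mem hy) x⁻¹) hy
    simpa using this
  have h2 : ∀ m : ℕ, (fun z : G => z⁻¹ * y⁻¹ * z * y)^[m + 2] x ∈ ⁅K, K⁆ := by
    intro m
    induction m with
    | zero =>
      show (x⁻¹ * y⁻¹ * x * y)⁻¹ * y⁻¹ * (x⁻¹ * y⁻¹ * x * y) * y ∈ ⁅K, K⁆
      exact hcm _ h1 _ hy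
    | succ m ih =>
      rw [show m + 1 + 2 = (m + 2) + 1 by ring, Function.iterate_succ_apply']
      exact hcm _ (Subgroup.commutator_le_left K K ih) _ hy
  obtain ⟨m, rfl⟩ : ∃ m, n = m + 2 := ⟨n - 2, by omega⟩
  rw [hL x y]
  exact h2 m

theorem Law.perfect {n : ℕ} (hn : 1 < n) (hL : Law n G) :
    commutator G ≤ ⁅commutator G, commutator G⁆ := by
  have h : ∀ x y : G, x⁻¹ * y⁻¹ * x * y ∈ ⁅commutator G, commutator G⁆ := by
    intro x y
    obtain ⟨m, rfl⟩ : ∃ m, n = m + 2 := ⟨n - 2, by omega⟩
    rw [hL x y, show m + 2 = (m + 1) + 1 by ring, Function.iterate_succ_apply']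
    have hz : (fun z : G => z⁻¹ * y⁻¹ * z * y)^[m + 1] x ∈ commutator G := by
      rw [Function.iterate_succ_apply']
      set u := (fun z : G => z⁻¹ * y⁻¹ * z * y)^[m] x
      have := Subgroup.commutator_mem_commutator (Subgroup.mem_top u⁻¹) (Subgroup.mem_top y⁻¹)
      rw [commutatorElement_def] at this
      simpa [commutator_def] using this
    have h2 := hL.comm_mem hn (commutator G) y _ hz
    have h3 := (⁅commutator G, commutator G⁆).inv_mem h2
    have e : ∀ z : G, (y⁻¹ * z⁻¹ * y * z)⁻¹ = z⁻¹ * y⁻¹ * z * y := by intro z; group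
    rw [e] at h3
    exact h3
  have key : ⁅(⊤ : Subgroup G), (⊤ : Subgroup G)⁆ ≤ ⁅commutator G, commutator G⁆ := by
    rw [Subgroup.commutator_le]
    intro g₁ _ g₂ _
    have := h g₁⁻¹ g₂⁻¹
    rw [inv_inv, inv_inv] at this
    exact this
  exact key

/-- In a group satisfying `L_n`, the derived subgroup of a finitely generated subgroup is finitely
generated and perfect. -/
theorem Law.derived {n : ℕ} (hn : 1 < n) (hL : Law n G) (H : Subgroup G) (hH : H.FG) :
    (⁅H, H⁆).FG ∧ ⁅(⁅H, H⁆), (⁅H, H⁆)⁆ = ⁅H, H⁆ := by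
  have hLH := hL.subgroup H
  have e : (commutator H).map H.subtype = ⁅H, H⁆ := by
    rw [commutator_def, Subgroup.map_commutator, ← MonoidHom.range_eq_map, Subgroup.range_subtype]
  constructor
  · rw [← e]
    exact fg_map _ _ (commutator_fg H (hLH.restr hn) ((Group.fg_iff_subgroup_fg H).2 hH))
  · rw [← e, ← Subgroup.map_commutator]
    congr 1
    exact le_antisymm (Subgroup.commutator_le_left _ _) (hLH.perfect hn)

end law

theorem lift_iter {G : Type} [Group G] {k : ℕ} (f : Fin k → G) (x y : FreeGroup (Fin k)) (n : ℕ) :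
    FreeGroup.lift f ((fun z : FreeGroup (Fin k) => z⁻¹ * y⁻¹ * z * y)^[n] x) =
      (fun z : G => z⁻¹ * (FreeGroup.lift f y)⁻¹ * z * (FreeGroup.lift f y))^[n]
        (FreeGroup.lift f x) := by
  induction n with
  | zero => rfl
  | succ n ih =>
    rw [Function.iterate_succ_apply', Function.iterate_succ_apply', ← ih]
    simp

/-- the word of the law -/
def word (n : ℕ) : FreeGroup (Fin 2) :=
  ((FreeGroup.of 0)⁻¹ * (FreeGroup.of 1)⁻¹ * FreeGroup.of 0 * FreeGroup.of 1)⁻¹ *
    (fun z : FreeGroup (Fin 2) => z⁻¹ * (FreeGroup.of 1)⁻¹ * z * FreeGroup.of 1)^[n] (FreeGroup.of 0)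

theorem word_ne (n : ℕ) (hn : 1 < n) : word n ≠ 1 := by
  intro h
  have h1 := congrArg (FreeGroup.lift (![DihedralGroup.r 1, DihedralGroup.sr 0] :
    Fin 2 → DihedralGroup 4)) h
  rw [word, map_mul, lift_iter, map_one] at h1
  obtain ⟨m, rfl⟩ : ∃ m, n = m + 2 := ⟨n - 2, by omega⟩
  rw [Function.iterate_add_apply] at h1
  have h2 : (fun z : DihedralGroup 4 => z⁻¹ * (FreeGroup.lift (![DihedralGroup.r 1,
      DihedralGroup.sr 0] : Fin 2 → DihedralGroup 4) (FreeGroup.of 1))⁻¹ * z *
      (FreeGroup.lift (![DihedralGroup.r 1,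
      DihedralGroup.sr 0] : Fin 2 → DihedralGroup 4) (FreeGroup.of 1)))^[2]
      (FreeGroup.lift (![DihedralGroup.r 1,
      DihedralGroup.sr 0] : Fin 2 → DihedralGroup 4) (FreeGroup.of 0)) = 1 := by
    simp only [FreeGroup.lift_apply_of]
    decide
  rw [h2] at h1
  have h3 : ∀ m : ℕ, (fun z : DihedralGroup 4 => z⁻¹ * (FreeGroup.lift (![DihedralGroup.r 1,
      DihedralGroup.sr 0] : Fin 2 → DihedralGroup 4) (FreeGroup.of 1))⁻¹ * z *
      (FreeGroup.lift (![DihedralGroup.r 1,
      DihedralGroup.sr 0] : Fin 2 → DihedralGroup 4) (FreeGroup.of 1)))^[m] 1 = 1 := by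
    intro m
    induction m with
    | zero => rfl
    | succ m ih =>
      rw [Function.iterate_succ_apply', ih]
      group
  rw [h3, mul_one, map_inv, inv_eq_one] at h1
  simp only [map_mul, map_inv, FreeGroup.lift_apply_of] at h1
  exact absurd h1 (by decide)

theorem abelian_of_ro {G : Type} [Group G] {n : ℕ} (hn : 1 < n) (hL : Law n G)
    (lt : G → G → Prop) (hirr : ∀ a, ¬ lt a a)
    (htr : ∀ a b c, lt a b → lt b c → lt a c) (htot : ∀ a b, lt a b ∨ a = b ∨ lt b a)
    (hr : ∀ a b c, lt a b → lt (a * c) (b * c)) (K : Subgroup G) (hK : K.FG)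
    (hperf : ⁅K, K⁆ = K) : K = ⊥ := by
  classical
  by_contra hKb
  have hnt : Nontrivial K := (Subgroup.nontrivial_iff_ne_bot K).2 hKb
  have hLK := hL.subgroup K
  obtain ⟨φ, hφ⟩ := Pool.Agent.Helper94.Tarski.surj_of_law (G := K)
      ((Group.fg_iff_subgroup_fg K).2 hK)
      (fun a b => lt (a : G) (b : G)) (fun a => hirr _) (fun a b c => htr _ _ _)
      (fun a b => by
        rcases htot (a : G) (b : G) with h | h | h
        · exact Or.inl h
        · exact Or.inr (Or.inl (Subtype.ext h))
        · exact Or.inr (Or.inr h))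
      (fun a b c h => hr _ _ _ h) 2 (word n) (word_ne n hn) (by
        intro f
        rw [word, map_mul, lift_iter, map_inv, inv_mul_eq_one]
        simp only [map_mul, map_inv, FreeGroup.lift_apply_of]
        exact hLK (f 0) (f 1))
  have hc : commutator K = ⊤ := by
    have h1 : (commutator K).map K.subtype = (⊤ : Subgroup K).map K.subtype := by
      rw [commutator_def, Subgroup.map_commutator, ← MonoidHom.range_eq_map,
        Subgroup.range_subtype, hperf]
    exact Subgroup.map_injective K.subtype_injective h1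
  have hle : commutator K ≤ φ.ker := Abelianization.commutator_subset_ker φ
  rw [hc, top_le_iff] at hle
  obtain ⟨x, hx⟩ := hφ (Multiplicative.ofAdd 1)
  have : x ∈ φ.ker := by rw [hle]; trivial
  rw [MonoidHom.mem_ker, hx] at this
  exact absurd (congrArg Multiplicative.toAdd this) (by simp)

end Pool.Agent.Helper94.Gupta
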